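import Pool.Agent.Helper1.UQ.St2

/-!
# Project UQ, module EPA: an elementary inequality
-/

set_option autoImplicit false

namespace Pool.Agent.Helper42.UQ

open Pool.Agent.Helper1.UQ

theorem hEPA : StEPA := by
  intro δ η hδ hη
  have h1 : (0 : ℝ) < 1 + δ := by linarith
  have hr0 : (0 : ℝ) ≤ 1 / (1 + δ) := by positivity
  have hr1 : 1 / (1 + δ) < 1 := by
    rw [div_lt_one h1]
    linarith
  obtain ⟨n, hn⟩ := exists_pow_lt_of_lt_one (by positivity : (0 : ℝ) < η / 2) hr1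
  have hk : (1 / (1 + δ)) ^ (n + 1) ≤ η / 2 := by
    refine le_trans ?_ hn.le
    rw [pow_succ]
    exact mul_le_of_le_one_right (pow_nonneg hr0 n) hr1.le
  refine ⟨n + 1, (η / 2) * δ ^ (n + 1) / ((n + 1 : ℕ) + 1), Nat.succ_pos n, by positivity, ?_⟩
  intro a x ha0 ha1 hx
  have h2 : a ≤ (a + δ) * (1 / (1 + δ)) := by
    rw [mul_one_div, le_div_iff₀ h1]
    nlinarith [mul_nonneg hδ.le (sub_nonneg.2 ha1)]
  have h3 : a ^ (n + 1) ≤ (a + δ) ^ (n + 1) * (η / 2) := by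
    calc a ^ (n + 1) ≤ ((a + δ) * (1 / (1 + δ))) ^ (n + 1) := pow_le_pow_left₀ ha0 h2 _
      _ = (a + δ) ^ (n + 1) * (1 / (1 + δ)) ^ (n + 1) := mul_pow _ _ _
      _ ≤ (a + δ) ^ (n + 1) * (η / 2) := mul_le_mul_of_nonneg_left hk (by positivity)
  have h4 : ((n + 1 : ℕ) : ℝ) * x ≤ (η / 2) * (a + δ) ^ (n + 1) := by
    calc ((n + 1 : ℕ) : ℝ) * x ≤ ((n + 1 : ℕ) : ℝ) * ((η / 2) * δ ^ (n + 1) / ((n + 1 : ℕ) + 1)) :=
          mul_le_mul_of_nonneg_left hx (by positivity)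
      _ = ((η / 2) * δ ^ (n + 1)) * (((n + 1 : ℕ) : ℝ) / ((n + 1 : ℕ) + 1)) := by ring
      _ ≤ ((η / 2) * δ ^ (n + 1)) * 1 := by
          refine mul_le_mul_of_nonneg_left ?_ (by positivity)
          rw [div_le_one (by positivity)]
          linarith
      _ = (η / 2) * δ ^ (n + 1) := mul_one _
      _ ≤ (η / 2) * (a + δ) ^ (n + 1) := by
          refine mul_le_mul_of_nonneg_left ?_ (by positivity)
          exact pow_le_pow_left₀ hδ.le (by linarith) _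
  calc a ^ (n + 1) + ((n + 1 : ℕ) : ℝ) * x
      ≤ (a + δ) ^ (n + 1) * (η / 2) + (η / 2) * (a + δ) ^ (n + 1) := add_le_add h3 h4
    _ = η * (a + δ) ^ (n + 1) := by ring

end Pool.Agent.Helper42.UQ
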