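import Pool.Agent.Helper1.UQ.St1

/-!
# Project UQ, module PSI: the decreasing function `ps`
-/

set_option autoImplicit false

open Finset

namespace Pool.Agent.Helper42.UQ

open Classical Pool.Agent.Helper30.RCU Pool.Agent.Helper1.UQ

universe u

lemma rk_le_of_subset {V ι : Type u} (φ : ι → Sym2 V) {A B : Finset ι} (h : A ⊆ B) :
    rk φ A ≤ rk φ B := by
  -- monotonicity by adding the edges of `B` one after another
  have key : ∀ C : Finset ι, rk φ A ≤ rk φ (A ∪ C) := by
    intro C
    induction C using Finset.induction_on with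
    | empty => simp
    | insert e C he ih =>
      rw [union_insert]
      refine ih.trans ?_
      obtain ⟨a, b, hab⟩ := exists_mk (φ := φ) e
      by_cases hc : Conn φ ((A ∪ C : Finset ι) : Set ι) a b
      · rw [rk_insert_of_conn hab hc]
      · rw [rk_insert_of_not_conn hab hc]
        omega
  have h3 := key B
  rwa [union_eq_right.2 h] at h3

theorem hPSI : StPSI.{u} := by
  intro V ι φ lam hlam F
  refine ⟨?_, ?_, ?_, ?_⟩
  · intro ω ω' hω
    have h1 : rk φ (ω' ∪ F) + rk φ ω ≤ rk φ (ω ∪ F) + rk φ ω' := rk_union_sub hω F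
    unfold ps
    refine pow_le_pow_right₀ hlam ?_
    have h2 := rk_le_of_subset φ (subset_union_left : ω ⊆ ω ∪ F)
    have h3 := rk_le_of_subset φ (subset_union_left : ω' ⊆ ω' ∪ F)
    omega
  · intro ω
    unfold ps
    exact one_le_pow₀ hlam
  · intro ω
    simp [ps]
  · intro f ω
    unfold ps
    refine pow_le_pow_right₀ hlam ?_
    have h2 : rk φ (ω ∪ F) ≤ rk φ (ω ∪ insert f F) :=
      rk_le_of_subset φ (union_subset_union_right (subset_insert f F))
    omega

end Pool.Agent.Helper42.UQ
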